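import Pool.Agent.H90H.Ideals
import Pool.Agent.H90G.Defs
import Pool.Agent.H90G.Final
import Pool.Agent.HFG.Main
import Pool.Agent.HFG.TorC

/-!
# Horrocks' inequalities for almost complete intersections and ideals with few generators

Let `k` be a field, `S = k[X_1, …, X_m]`, and let `g_1, …, g_{m+1} ∈ S` be such that the ideal
`(g)` contains a power of every variable; put `ρ = dim S/(g)`.  Let `M` be an `S`-module of finite
dimension over `k`, and `b_i` the rank of the `i`-th module in a resolution of `M` by free modules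
of finite rank.

* If `g_1, …, g_m` kill `M`, then `m.choose i * dim M/(g)M ≤ ρ * b_i` for all `i`.
* If `g_1, …, g_{m-1}` kill `M`, then for all `i`,
  `(m-1).choose (i+1) * dim M/(g)M + (m-1).choose i * dim {x ∈ M | (g) x = 0} ≤ ρ * b_{i+1}`.
* Hence Horrocks' inequalities `m.choose i ≤ b_i` hold for all `i` if `M = S/J` where
  `g_1, …, g_m ∈ J ⊆ (g) ≠ S`, for instance for `J = (g)`, i.e. for all almost complete
  intersections.
* They hold for all `i` if `M = S/J` has a one-dimensional socle and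
  `g_1, …, g_{m-1} ∈ J ⊆ (g) ≠ S`.
* Let `f_1, …, f_{m+2} ∈ S` kill `M` and let `(f)` contain a power of every variable, or let this be
  true for `f_1, …, f_{m+1}`. With `r = dim S/(f)`, for all `i`,
  `(m+1) * m.choose i * dim M/(f)M ≤ (m+2) * r * b_i` and
  `(m+1).choose (i+1) * dim M/(f)M ≤ r * (b_i + b_{i+1})`.
* Hence for every proper ideal with `m+2` generators containing powers of the variables, and for the
  ideals between `(f_1, …, f_{m+1})` and `(f) ≠ S` if the former contains powers of the variables,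
  `b_i ≥ (1 - 1/(m+2)) * m.choose i` and `b_i + b_{i+1} ≥ (m+1).choose (i+1)` for all `i`.
* If `M = S/I`, where `I = (f_1, …, f_{m+s})` is proper and contains a power of every variable,
  then there is a family `A` of subsets of an `(m+s)`-element set, closed under supersets and
  without `s+1` pairwise disjoint members, such that `b_i ≥ (m+s).choose i - |{a ∈ A : |a| = i}|`
  for all `i`; and `b_i ≥ m.choose i` if `s ≤ 1`, or `(2s+1)i ≤ m+2s`, or `i = 2` and
  `3s+3 ≤ 2m`.
-/

set_option autoImplicit false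

namespace Pool.Agent.Results.MP_e2ce73_al.AlmostComplete

open MvPolynomial H90G

universe u

theorem result {k : Type u} [Field k] :
    (∀ (m : ℕ) (M : Type u) [AddCommGroup M] [Module k M] [Module (MvPolynomial (Fin m) k) M]
        [IsScalarTower k (MvPolynomial (Fin m) k) M] [FiniteDimensional k M]
        (F : Horr.FreeRes (MvPolynomial (Fin m) k) M) (i : ℕ),
      (∀ f : Fin (m + 1) → MvPolynomial (Fin m) k, HasPow (Idl f) →
        (Kills m f M → m.choose i * lenM f M ≤ len f * F.rk i) ∧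
        (1 ≤ m → 1 ≤ i → Kills (m - 1) f M →
          (m - 1).choose i * lenM f M + (m - 1).choose (i - 1) * annM f M ≤ len f * F.rk i)) ∧
      (∀ f : Fin (m + 2) → MvPolynomial (Fin m) k,
        (HasPow (Idl (init f)) ∧ Kills (m + 1) f M) ∨ (HasPow (Idl f) ∧ Kills (m + 2) f M) →
        (m + 1) * (m.choose i * lenM f M) ≤ (m + 2) * (len f * F.rk i) ∧
        (m + 1).choose (i + 1) * lenM f M ≤ len f * (F.rk i + F.rk (i + 1)))) ∧
    (∀ (m : ℕ) (J : Ideal (MvPolynomial (Fin m) k))
        (F : Horr.FreeRes (MvPolynomial (Fin m) k) (MvPolynomial (Fin m) k ⧸ J)) (i : ℕ),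
      (∀ f : Fin (m + 1) → MvPolynomial (Fin m) k, HasPow J → J ≤ Idl f → Idl f ≠ ⊤ →
        FirstIn m f J ∨ (1 ≤ m ∧ FirstIn (m - 1) f J ∧
          Module.finrank k (Submodule.torsionBySet (MvPolynomial (Fin m) k)
            (MvPolynomial (Fin m) k ⧸ J) (Set.range X)) = 1) →
        m.choose i ≤ F.rk i) ∧
      (∀ f : Fin (m + 2) → MvPolynomial (Fin m) k, Idl f ≠ ⊤ →
        (HasPow (Idl (init f)) ∧ FirstIn (m + 1) f J ∧ J ≤ Idl f) ∨
          (HasPow (Idl f) ∧ J = Idl f) →
        (m + 1) * m.choose i ≤ (m + 2) * F.rk i ∧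
        (m + 1).choose (i + 1) ≤ F.rk i + F.rk (i + 1))) ∧
    (∀ (m s : ℕ) (f : Fin (m + s) → MvPolynomial (Fin m) k), Idl f ≠ ⊤ → HasPow (Idl f) →
      ∀ F : Horr.FreeRes (MvPolynomial (Fin m) k) (MvPolynomial (Fin m) k ⧸ Idl f),
        (∃ A : Finset (Finset (Fin (m + s))), (∀ a ∈ A, ∀ b, a ⊆ b → b ∈ A) ∧
          (∀ g : Fin (s + 1) → Finset (Fin (m + s)), (∀ q, g q ∈ A) →
            ∃ q r, q ≠ r ∧ ¬ Disjoint (g q) (g r)) ∧
          ∀ i, (m + s).choose i ≤ F.rk i + (A.filter fun a => a.card = i).card) ∧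
        ∀ i, s ≤ 1 ∨ (2 * s + 1) * i ≤ m + 2 * s ∨ (i = 2 ∧ 3 * s + 3 ≤ 2 * m) →
          m.choose i ≤ F.rk i) := by
  refine ⟨?_, ?_, ?_⟩
  · intro m M _ _ _ _ _ F i
    refine ⟨fun f hX => ⟨fun hf => ?_, fun hm hi hf => ?_⟩, fun f h => ?_⟩
    · exact H90H.one_le hX F (fun j x => hf j.castSucc j.2 x) i
    · obtain ⟨n, rfl⟩ := Nat.exists_eq_succ_of_ne_zero (Nat.one_le_iff_ne_zero.1 hm)
      obtain ⟨l, rfl⟩ := Nat.exists_eq_succ_of_ne_zero (Nat.one_le_iff_ne_zero.1 hi)
      exact H90H.two_le hX F (fun j x => hf j.castSucc.castSucc j.2 x) l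
    · refine H90G.extra_le f M ?_ F i
      rcases h with ⟨hX, hf⟩ | ⟨hX, hf⟩
      · exact Or.inl ⟨hX, fun l x => hf l.castSucc l.2 x⟩
      · exact Or.inr ⟨hX, fun l x => hf l l.2 x⟩
  · intro m J F i
    refine ⟨fun f hX h2 h3 h => ?_, fun f h3 h => ?_⟩
    · rcases h with h1 | ⟨hm, h1, hs⟩
      · exact H90H.choose_le f J hX (fun j => h1 j.castSucc j.2) h2 h3 F i
      · obtain ⟨n, rfl⟩ := Nat.exists_eq_succ_of_ne_zero (Nat.one_le_iff_ne_zero.1 hm)
        exact H90H.choose_le_gor f J hX (fun j => h1 j.castSucc.castSucc j.2) h2 h3 hs F i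
    · refine H90G.extra_ideal f J ?_ h3 F i
      rcases h with ⟨hX, h1, h2⟩ | ⟨hX, h1⟩
      · exact Or.inl ⟨hX, fun l => h1 l.castSucc l.2, h2⟩
      · exact Or.inr ⟨hX, h1⟩
  · intro m s f h1 hX F
    refine ⟨?_, fun i hi => ?_⟩
    · obtain ⟨A, hA1, hA2, hA3⟩ := HFG.exists_family m s f h1 hX
      exact ⟨A, hA1, hA2, hA3 F⟩
    · rcases hi with hi | hi | hi
      · rcases Nat.le_one_iff_eq_zero_or_eq_one.1 hi with rfl | rfl
        · obtain ⟨A, hA1, hA2, hA3⟩ := HFG.exists_family m 0 f h1 hX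
          have h2 := hA3 F i
          have h3 : A = ∅ := by
            by_contra hne
            obtain ⟨a, ha⟩ := Finset.nonempty_iff_ne_empty.2 hne
            obtain ⟨q, r, hqr, -⟩ := hA2 (fun _ => a) (fun _ => ha)
            exact hqr (Fin.ext (by omega))
          rw [h3] at h2
          simpa using h2
        · exact H90H.choose_le f _ hX (fun j => Ideal.subset_span ⟨_, rfl⟩) le_rfl h1 F i
      · exact HFG.main m s f h1 hX F i (Or.inr (Or.inl hi))
      · exact HFG.main m s f h1 hX F i (Or.inr (Or.inr hi))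

end Pool.Agent.Results.MP_e2ce73_al.AlmostComplete
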