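import Pool.Agent.HF5.Final

/-!
# Horrocks' conjecture in five variables

Let `S = k[X_0, …, X_4]` over a field of characteristic zero, with arbitrary positive weights for
the variables, and let `M ≠ 0` be a graded `S`-module of finite length.  Then its Betti numbers
satisfy `βᵢ(M) ≥ (5 choose i)` for all `i = 0, …, 5`.
-/

set_option autoImplicit false

namespace Pool.Agent.Results.MP_e2ce73_al.HorrocksFive

open MvPolynomial Matrix Pool.Agent.HC5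

universe u

theorem result {k : Type u} [Field k] [CharZero k] {f0 f1 f2 f3 f4 f5 : ℕ}
    (F : Res k f0 f1 f2 f3 f4 f5) (w : Fin 5 → ℤ) (hw : ∀ j, 0 < w j)
    {a0 : Fin f0 → ℤ} {a1 : Fin f1 → ℤ} {a2 : Fin f2 → ℤ} {a3 : Fin f3 → ℤ} {a4 : Fin f4 → ℤ}
    {a5 : Fin f5 → ℤ} (hF : F.Graded w a0 a1 a2 a3 a4 a5) (h : 0 < f0) :
    Nat.choose 5 0 ≤ f0 ∧ Nat.choose 5 1 ≤ f1 ∧ Nat.choose 5 2 ≤ f2 ∧ Nat.choose 5 3 ≤ f3 ∧
      Nat.choose 5 4 ≤ f4 ∧ Nat.choose 5 5 ≤ f5 := by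
  obtain ⟨h0, h1, h2, h3, h4, h5⟩ := Pool.Agent.HF5.horrocks_five F w hw hF h
  exact ⟨h0, h1, h2, h3, h4, h5⟩

end Pool.Agent.Results.MP_e2ce73_al.HorrocksFive
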