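import Pool.Agent.TS60.Six

/-!
# The rank of the third syzygy module of a module of finite length

Let `k` be a field of characteristic `0`, `m ≥ 3`, `S = k[X_1, …, X_m]` and `M ≠ 0` an `S`-module on
which every variable acts nilpotently. Let `⋯ → S^{b_1} → S^{b_0} → M → 0` be a resolution of `M` by
free modules of finite rank (so `M` has finite length). The rank of the third syzygy module is
`r_3 = b_2 - b_1 + b_0`.

* If `M` has a quotient isomorphic to `S / ann M` (for instance if `M` is cyclic), then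
  `r_3 ≥ (m - 2) + c` for every `c ≥ 0` with `2 c - max(0, c - b_0) ≤ m - 2`; so always
  `r_3 ≥ (m - 2) + ⌊(m - 2)/2⌋`, and `r_3 ≥ 2 m - 4 - b_0` if `b_0 ≤ (m - 2)/2`.
* In particular, for `M = S/I` with `b_0 = 1`, one has `r_3 ≥ 2m-5`, that is `b_2 ≥ b_1 + 2m - 6`.
* If `M = S/I`, `b_0 = 1` and `m = 6`, then `b_2 ≥ 15` (Horrocks' inequality for the second Betti
  number of all cyclic modules in six variables).
-/

set_option autoImplicit false

namespace Pool.Agent.Results.MP_e2ce73_al.SyzygyRanks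

open MvPolynomial

universe u

theorem result {k : Type u} [Field k] [CharZero k] (m : ℕ) (hm : 3 ≤ m) :
    (∀ (M : Type u) [AddCommGroup M] [Module (MvPolynomial (Fin m) k) M] [Nontrivial M],
      (∀ j : Fin m, ∃ N : ℕ, ∀ z : M, (X j : MvPolynomial (Fin m) k) ^ N • z = 0) →
      (∃ π : M →ₗ[MvPolynomial (Fin m) k] MvPolynomial (Fin m) k ⧸
          Module.annihilator (MvPolynomial (Fin m) k) M, Function.Surjective π) →
      ∀ (F : Horr.FreeRes (MvPolynomial (Fin m) k) M) (c : ℕ), 2 * c + 2 ≤ m + (c - F.rk 0) →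
        F.rk 1 + (m - 2) + c ≤ F.rk 2 + F.rk 0) ∧
    (∀ I : Ideal (MvPolynomial (Fin m) k), I ≠ ⊤ →
      (∀ j : Fin m, ∃ N : ℕ, (X j : MvPolynomial (Fin m) k) ^ N ∈ I) →
      ∀ F : Horr.FreeRes (MvPolynomial (Fin m) k) (MvPolynomial (Fin m) k ⧸ I), F.rk 0 = 1 →
        F.rk 1 + 2 * m ≤ F.rk 2 + 6 ∧ (m = 6 → 15 ≤ F.rk 2)) := by
  refine ⟨?_, ?_⟩
  · intro M _ _ _ hM hπ F c hc
    obtain ⟨r, h1, -, -, h4⟩ := TS60.syz_bounds m M hM F 2 (by norm_num) (by omega)
    have h5 := h4 (by decide) hπ c (m - 2) hc (by omega)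
    have h6 : (∑ t ∈ Finset.range (2 + 1), (-1 : ℤ) ^ (t + 2) * (F.rk t : ℤ)) =
        F.rk 0 - F.rk 1 + F.rk 2 := by
      simp [Finset.sum_range_succ]
      ring
    rw [h6] at h1
    omega
  · intro I hI hX F h0
    refine ⟨TS60.cyclic_two m hm I hI hX F h0, ?_⟩
    rintro rfl
    exact TS60.cyclic_six I hI hX F h0

end Pool.Agent.Results.MP_e2ce73_al.SyzygyRanks
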