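import Pool.Agent.TG39.Peel
import Pool.Agent.TG39.C2.Asm
import Pool.Agent.TG39.C2.Crit

/-!
# Horrocks' inequalities for modules with a torus and matrix group symmetry

Let `V` be a finite product of spaces of general, symmetric and skew-symmetric matrices, `N = dim V`,
and let `S = k[V, y_1, …, y_n]` be the polynomial ring in the coordinates of `V` and in variables
`y_1, …, y_n`.  Let `M ≠ 0` be a module of finite dimension over `S` on which the Lie algebra of the
corresponding product of general linear groups acts, compatibly with its natural action on the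
coordinates of `V` and commuting with the `y_j`, and which is graded by an abelian group `Λ` such that
`y_j` is homogeneous of degree `w j` and the diagonal matrices are of degree `0`.
We prove `βᵢ(M) ≥ (N + n choose i)` for all `i` if the weights `w` are `b`-tame, where `b = 5` if `k`
has characteristic zero and some additive function `Λ → ℤ` is positive at all weights, and `b = 4` if
the `y_j` act nilpotently.  If there are no matrix coordinates (`N = 0`), the field is arbitrary for
`b = 4`, and we also prove the stronger inequalities for the ranks of the syzygy modules.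

The set of the variables `y_j` is `b`-tame (`TG39.TameR`) in particular in the following cases:
* `M` is multigraded in all but `b` of the `y_j`;
* the `y_j` can be removed one or two at a time, each time exactly those of the remaining
  variables at which some additive function `Λ → ℤ` is nonzero, until at most `b` are left
  (`TG39.Peel`);
* the weights span a group of rank at least `n - 1`, or at least `n - 2` if `b = 5` (complexity two:
  for example the modules over the Cox ring of a toric surface, graded by the Picard group);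
* `n ≥ 6`, the weights span a group of rank `n - 2`, and each `n - 2` of them are linearly
  independent.
-/

set_option autoImplicit false

namespace Pool.Agent.Results.MP_e2ce73_al.TorusMatrixGradings

open Finset MvPolynomial Horr HorrS TG39

universe u v

theorem result {o : Type} [Fintype o] [DecidableEq o] (K : o → Cell) {n b : ℕ}
    (hbN : b < (∑ c, (K c).num) + n)
    {k : Type u} [Field k] (hk : 0 < ∑ c, (K c).num → CharZero k)
    -- a nonzero module of finite dimension over the polynomial ring
    {M : Type u} [AddCommGroup M] [Module k M] [Module (MvPolynomial (Vars K n) k) M]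
    [IsScalarTower k (MvPolynomial (Vars K n) k) M] [Module.Finite k M] [Nontrivial M]
    -- the compatible action of the general linear Lie algebras
    (e : (c : o) → (K c).Ind → (K c).Ind → Module.End k M) (he : IsEquivariant K n e)
    -- the grading by an abelian group `Λ`, the variable `y_j` has degree `w j`
    {Λ : Type v} [AddCommGroup Λ] [DecidableEq Λ] (𝓜 : Λ → Submodule k M)
    (hM : DirectSum.IsInternal 𝓜) (w : Fin n → Λ)
    (hw : ∀ j d, ∀ x ∈ 𝓜 d, (X (Sum.inr j) : MvPolynomial (Vars K n) k) • x ∈ 𝓜 (d + w j))
    (hd : ∀ c u d, ∀ x ∈ 𝓜 d, e c u u x ∈ 𝓜 d)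
    -- the characteristic, and the positivity of the grading
    (hb : (b ≤ 5 ∧ CharZero k ∧ ∃ lam : Λ →+ ℤ, ∀ j, 0 < lam (w j)) ∨
      (b ≤ 4 ∧ ∀ j : Fin n, ∃ N : ℕ, ∀ x : M,
        (X (Sum.inr j) ^ N : MvPolynomial (Vars K n) k) • x = 0))
    -- one of the following three conditions on the weights
    (hT :
      -- multigraded in all but `b` of the variables `y_j`
      (∃ Z : Finset (Fin n), Z.card ≤ b ∧
        ∀ j ∉ Z, ∃ ℓ : Λ →+ ℤ, ℓ (w j) ≠ 0 ∧ ∀ l, l ≠ j → ℓ (w l) = 0) ∨
      -- rank at least `n - 1`, or at least `n - 2` if `b = 5`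
      (Module.Finite ℤ Λ ∧
        ((1 ≤ b ∧ n ≤ Module.finrank ℤ (Submodule.span ℤ (Set.range w)) + 1) ∨
        (b = 5 ∧ n ≤ Module.finrank ℤ (Submodule.span ℤ (Set.range w)) + 2))) ∨
      -- the general condition
      TameR w b univ)
    -- any resolution by free modules of finite rank
    (F : FreeRes (MvPolynomial (Vars K n) k) M) :
    (∀ i, ((∑ c, (K c).num) + n).choose i ≤ F.rk i) ∧
      (∑ c, (K c).num = 0 → ∀ i < n, ((n - 1).choose i : ℤ) ≤
        ∑ t ∈ range (i + 1), (-1 : ℤ) ^ (i - t) * (F.rk t : ℤ)) := by
  have hT' : TameR w b univ := by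
    rcases hT with ⟨Z, hZ, h⟩ | ⟨h1, ⟨h2, h3⟩ | ⟨h2, h3⟩⟩ | h
    · exact TameR.of_tame (tame_of_peel (peel_of_multigraded hZ univ fun j _ hj =>
        let ⟨ℓ, h1, h2⟩ := h j hj
        ⟨ℓ, h1, fun l _ hl => h2 l hl⟩))
    · exact TameR.of_tame (Tame.mono h2 (tame_of_finrank (by rwa [Fintype.card_fin]) univ))
    · subst h2
      exact tameR_of_rel univ ((finrank_rel_restr univ).trans
        (finrank_rel (by rwa [Fintype.card_fin])))
    · exact h
  have hnil : ∀ j : Fin n, ∃ N : ℕ, ∀ x : M,
      (X (Sum.inr j) ^ N : MvPolynomial (Vars K n) k) • x = 0 := by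
    rcases hb with ⟨-, -, lam, hlam⟩ | ⟨-, h⟩
    · exact nil_of_grading 𝓜 hM w hw lam hlam
    · exact h
  have hb' : b ≤ 4 ∨ (b ≤ 5 ∧ CharZero k ∧ ∃ lam : Λ →+ ℤ, ∀ j, 0 < lam (w j)) := by
    rcases hb with h | ⟨h, -⟩
    · exact Or.inr h
    · exact Or.inl h
  rcases Nat.eq_zero_or_pos (∑ c, (K c).num) with h0 | h0
  · have : IsEmpty (Σ c, (K c).Var) := by
      rw [← Fintype.card_eq_zero_iff, card_sysFam, h0]
    have h := horrocks_tameR_zero (P := Σ c, (K c).Var) (critHyp k Λ) 𝓜 hM w hw hb' hnil hT' F
    rw [h0] at hbN ⊢
    rw [zero_add] at hbN ⊢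
    exact ⟨h.1, fun _ => h.2 hbN⟩
  · have := hk h0
    exact ⟨fun i => equivariant_free_of he 𝓜 hM w hw hd hnil
      (allOk_of_tameR (critHyp k Λ) hb' hT') F i, fun h => absurd h (by omega)⟩

end Pool.Agent.Results.MP_e2ce73_al.TorusMatrixGradings
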